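import Pool.Agent.Lib.MP_7e9852_an.UltraDefs
import Pool.Agent.Lib.MP_7e9852_an.Main

/-!
# A non-amenable strongly solid II₁ factor existentially contained in a tracial von Neumann
algebra with a Cartan subalgebra

The definitions (tracial von Neumann algebras, amenability, strong solidity, Cartan
subalgebras) are in `Pool/Agent/Lib/MP_7e9852_an/Defs.lean`; embeddings, the tracial ultrapower
and existential embeddings are in `Pool/Agent/Lib/MP_7e9852_an/UltraDefs.lean`.

Construction. `N = L(H)` and `M = L(Λ)`, where `Λ = (⊕_H Z/2) ⋊ H` is the lamplighter group over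
a countable group `H` with the following properties. `H` is an increasing union of groups `H_k`,
each acting properly on a tree (in the form of a cocycle with values in a free group) and
almost malnormal in `H`. Larger and larger finite parts of `Λ` are modelled in `H` itself: there
are maps `β_k` from the lamp configurations to `H` which are asymptotically additive,
asymptotically equivariant for conjugation by `H`, and leave every finite set. This gives the
embedding of `M` in `N^U`. The Cartan subalgebra is `L(⊕_H Z/2)`. Strong solidity of `L(H)` is
proved by the method of Ozawa and Popa: the multipliers of the tree groups `H_k ⊂ H` give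
complete metric approximation, hence weak compactness, and almost malnormality gives
asymptotic commutation of left and right translations.
-/

namespace Pool.Agent.Results.MP_7e9852_an.CartanExistential

open MP7e

/-- There are a non-amenable strongly solid II₁ factor `N` and a tracial von Neumann algebra `M`
with a Cartan subalgebra (both on separable Hilbert spaces), and an embedding `ι : N → M` which
is existential for every nonprincipal ultrafilter `U` on `ℕ`. -/
theorem result :
    ∃ (N M : TVN) (ι : N.El → M.El),
      IsII1Factor N.vna ∧ ¬ Amenable N.vna N.vna.alg ∧ StronglySolid N.vna ∧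
      (∃ A : VonNeumannAlgebra M.K, IsCartan M.vna A) ∧
      TopologicalSpace.SeparableSpace N.K ∧ TopologicalSpace.SeparableSpace M.K ∧
      IsEmbedding N M ι ∧
      ∀ U : Ultrafilter ℕ, (∀ n : ℕ, U ≠ pure n) → IsExistential ι U := by
  obtain ⟨H, _, hc, h1, h2, h3, h4, ι, hι, hex⟩ := main_group
  refine ⟨⟨L2 H, LGt H⟩, ⟨L2 (Lamp H), LGt (Lamp H)⟩, mkHom _ _ ι, h1, h2, h3, h4,
    Main.separable_L2 H, Main.separable_L2 (Lamp H),
    isEmbedding_mkHom ⟨L2 H, LGt H⟩ ⟨L2 (Lamp H), LGt (Lamp H)⟩ ι hι, fun U hU => ?_⟩
  refine isExistential_of_lift ⟨L2 H, LGt H⟩ ⟨L2 (Lamp H), LGt (Lamp H)⟩ ι U (hex U ?_)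
  rw [← Nat.cofinite_eq_atTop]
  rcases Ultrafilter.le_cofinite_or_eq_pure U with h | ⟨n, h⟩
  · exact h
  · exact absurd h (hU n)

end Pool.Agent.Results.MP_7e9852_an.CartanExistential
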